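import Mathlib
set_option autoImplicit false
namespace FT722

/-- the lower boundary function of a compact convex set -/
theorem lower_function {S : Set (ℝ × ℝ)} (hS : IsCompact S) (hc : Convex ℝ S) {a b : ℝ}
    (hproj : Prod.fst '' S = Set.Icc a b) :
    ∃ f : ℝ → ℝ, ConvexOn ℝ (Set.Icc a b) f ∧ ContinuousOn f (Set.Icc a b) ∧
      (∀ x ∈ Set.Icc a b, (x, f x) ∈ S) ∧ ∀ p ∈ S, f p.1 ≤ p.2 := by
  classical
  have hslice : ∀ x : ℝ, IsCompact {y : ℝ | (x, y) ∈ S} := by
    intro x
    have h1 : {y : ℝ | (x, y) ∈ S} = Prod.snd '' (S ∩ {p : ℝ × ℝ | p.1 = x}) := by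
      ext y
      constructor
      · intro hy
        exact ⟨(x, y), ⟨hy, rfl⟩, rfl⟩
      · rintro ⟨⟨x', y'⟩, ⟨h1, h2⟩, h3⟩
        simp only at h3
        have h2' : x' = x := h2
        subst h2'; subst h3
        exact h1
    rw [h1]
    apply IsCompact.image _ continuous_snd
    apply hS.inter_right
    exact isClosed_eq continuous_fst continuous_const
  have hmem : ∀ x ∈ Set.Icc a b, {y : ℝ | (x, y) ∈ S}.Nonempty := by
    intro x hx
    rw [← hproj] at hx
    obtain ⟨⟨x', y⟩, h1, h2⟩ := hx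
    simp only at h2
    subst h2
    exact ⟨y, h1⟩
  let f : ℝ → ℝ := fun x => sInf {y : ℝ | (x, y) ∈ S}
  have hf1 : ∀ x ∈ Set.Icc a b, (x, f x) ∈ S := fun x hx => (hslice x).sInf_mem (hmem x hx)
  have hf2 : ∀ p ∈ S, f p.1 ≤ p.2 := fun p hp => csInf_le (hslice p.1).bddBelow hp
  have hconv : ConvexOn ℝ (Set.Icc a b) f := by
    refine ⟨convex_Icc a b, ?_⟩
    intro x hx y hy s t hs ht hst
    have h1 := hc (hf1 x hx) (hf1 y hy) hs ht hst
    have h2 := hf2 _ h1
    simpa using h2
  refine ⟨f, hconv, ?_, hf1, hf2⟩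
  -- boundedness
  obtain ⟨M, hM⟩ := hS.isBounded.exists_norm_le
  have hfM : ∀ x ∈ Set.Icc a b, |f x| ≤ M := by
    intro x hx
    have h1 := hM _ (hf1 x hx)
    exact (norm_snd_le (x, f x)).trans h1
  intro x hx
  rw [Metric.continuousWithinAt_iff]
  intro ε hε
  -- lower semicontinuity
  have hlow : ∃ δ > 0, ∀ x' ∈ Set.Icc a b, |x' - x| < δ → f x - ε < f x' := by
    have hcpt : IsCompact (Prod.fst '' (S ∩ {p : ℝ × ℝ | p.2 ≤ f x - ε})) := by
      apply IsCompact.image _ continuous_fst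
      apply hS.inter_right
      exact isClosed_le continuous_snd continuous_const
    have hx' : x ∉ Prod.fst '' (S ∩ {p : ℝ × ℝ | p.2 ≤ f x - ε}) := by
      rintro ⟨⟨x', y⟩, ⟨h1, h2⟩, h3⟩
      simp only at h3
      subst h3
      have h4 := hf2 _ h1
      have h5 : y ≤ f x' - ε := h2
      simp only at h4
      linarith
    have hop := hcpt.isClosed.isOpen_compl.mem_nhds hx'
    obtain ⟨δ, hδ, hball⟩ := Metric.mem_nhds_iff.1 hop
    refine ⟨δ, hδ, ?_⟩
    intro x' hx'1 hx'2
    by_contra hcon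
    push Not at hcon
    have h6 : x' ∈ Metric.ball x δ := by rw [Metric.mem_ball, Real.dist_eq]; exact hx'2
    exact hball h6 ⟨(x', f x'), ⟨hf1 x' hx'1, hcon⟩, rfl⟩
  -- upper semicontinuity towards a point `e`
  have hup : ∀ e ∈ Set.Icc a b, ∃ δ > 0, ∀ x' ∈ Set.Icc a b, |x' - x| < δ → x' ∈ segment ℝ x e → f x' < f x + ε := by
    intro e he
    by_cases hxe : x = e
    · refine ⟨1, one_pos, ?_⟩
      intro x' _ _ h2
      rw [← hxe, segment_same, Set.mem_singleton_iff] at h2
      rw [h2]; linarith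
    · have hd : 0 < |e - x| := abs_pos.2 (sub_ne_zero.2 (Ne.symm hxe))
      have hM0 : 0 ≤ M := (abs_nonneg _).trans (hfM x hx)
      refine ⟨ε * |e - x| / (2 * M + 1), by positivity, ?_⟩
      intro x' hx'1 hx'2 h2
      obtain ⟨s, t, hs, ht, hst, hx'eq⟩ := h2
      have h3 := hconv.2 hx he hs ht hst
      rw [hx'eq] at h3
      simp only [smul_eq_mul] at h3 hx'eq
      have hs' : s = 1 - t := by linarith
      have h4 : x' - x = t * (e - x) := by rw [← hx'eq, hs']; ring
      have h5 : |x' - x| = t * |e - x| := by rw [h4, abs_mul, abs_of_nonneg ht]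
      have h6 : t < ε / (2 * M + 1) := by
        rw [h5] at hx'2
        have h7 : ε * |e - x| / (2 * M + 1) = (ε / (2 * M + 1)) * |e - x| := by ring
        rw [h7] at hx'2
        exact lt_of_mul_lt_mul_right hx'2 hd.le
      have h8 : f e - f x ≤ 2 * M := by
        have h9 := hfM e he
        have h10 := hfM x hx
        have h11 := abs_le.1 h9
        have h12 := abs_le.1 h10
        linarith
      have h13 : t * (f e - f x) ≤ t * (2 * M) := mul_le_mul_of_nonneg_left h8 ht
      have h14 : t * (2 * M) < ε := by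
        have h15 : t * (2 * M + 1) < ε := by
          rw [lt_div_iff₀ (by positivity)] at h6
          exact h6
        nlinarith
      have h16 : s * f x + t * f e = f x + t * (f e - f x) := by rw [hs']; ring
      linarith
  have haI : a ∈ Set.Icc a b := ⟨le_rfl, hx.1.trans hx.2⟩
  have hbI : b ∈ Set.Icc a b := ⟨hx.1.trans hx.2, le_rfl⟩
  obtain ⟨δ1, hδ1, H1⟩ := hlow
  obtain ⟨δ2, hδ2, H2⟩ := hup a haI
  obtain ⟨δ3, hδ3, H3⟩ := hup b hbI
  refine ⟨min δ1 (min δ2 δ3), by positivity, ?_⟩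
  intro x' hx' hdist
  rw [Real.dist_eq] at hdist
  have hd1 := lt_of_lt_of_le hdist (min_le_left _ _)
  have hd2 := lt_of_lt_of_le hdist ((min_le_right _ _).trans (min_le_left _ _))
  have hd3 := lt_of_lt_of_le hdist ((min_le_right _ _).trans (min_le_right _ _))
  have hA := H1 x' hx' hd1
  have hB : f x' < f x + ε := by
    rcases le_total x' x with hle | hle
    · apply H2 x' hx' hd2
      rw [segment_symm, segment_eq_Icc hx.1]
      exact ⟨hx'.1, hle⟩
    · apply H3 x' hx' hd3
      rw [segment_eq_Icc hx.2]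
      exact ⟨hle, hx'.2⟩
  rw [Real.dist_eq, abs_lt]
  constructor <;> linarith

/-- A compact convex set in the plane is the region between a continuous convex function and a
continuous concave function on a compact interval. -/
theorem body_functions {S : Set (ℝ × ℝ)} (hS : IsCompact S) (hc : Convex ℝ S) (hne : S.Nonempty) :
    ∃ (a b : ℝ) (f g : ℝ → ℝ), a ≤ b ∧ ConvexOn ℝ (Set.Icc a b) f ∧ ConcaveOn ℝ (Set.Icc a b) g ∧
      ContinuousOn f (Set.Icc a b) ∧ ContinuousOn g (Set.Icc a b) ∧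
      (∀ x ∈ Set.Icc a b, f x ≤ g x) ∧
      S = {p : ℝ × ℝ | p.1 ∈ Set.Icc a b ∧ f p.1 ≤ p.2 ∧ p.2 ≤ g p.1} := by
  -- the projection
  have hP : IsCompact (Prod.fst '' S) := hS.image continuous_fst
  have hPc : Convex ℝ (Prod.fst '' S) := hc.linear_image (LinearMap.fst ℝ ℝ ℝ)
  have hPn : (Prod.fst '' S).Nonempty := hne.image _
  obtain ⟨a, b, hab⟩ : ∃ a b : ℝ, Prod.fst '' S = Set.Icc a b :=
    ⟨sInf (Prod.fst '' S), sSup (Prod.fst '' S),
      eq_Icc_of_connected_compact ⟨hPn, hPc.isPreconnected⟩ hP⟩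
  have hle : a ≤ b := by
    rw [hab] at hPn
    exact Set.nonempty_Icc.1 hPn
  obtain ⟨f, hf1, hf2, hf3, hf4⟩ := lower_function hS hc hab
  -- the reflected set
  let r : ℝ × ℝ → ℝ × ℝ := fun p => (p.1, -p.2)
  have hr : Continuous r := by fun_prop
  have hS' : IsCompact (r '' S) := hS.image hr
  have hc' : Convex ℝ (r '' S) := by
    rintro _ ⟨p, hp, rfl⟩ _ ⟨q, hq, rfl⟩ s t hs ht hst
    refine ⟨s • p + t • q, hc hp hq hs ht hst, ?_⟩
    apply Prod.ext
    · simp [r]
    · simp [r]; ring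
  have hab' : Prod.fst '' (r '' S) = Set.Icc a b := by
    rw [← hab, Set.image_image]
  obtain ⟨g', hg1, hg2, hg3, hg4⟩ := lower_function hS' hc' hab'
  have hgS : ∀ x ∈ Set.Icc a b, (x, -g' x) ∈ S := by
    intro x hx
    obtain ⟨p, hp, hpr⟩ := hg3 x hx
    have h1 : p.1 = x := congrArg Prod.fst hpr
    have h2 : -p.2 = g' x := congrArg Prod.snd hpr
    have h3 : p = (x, -g' x) := Prod.ext h1 (by rw [← h2, neg_neg])
    rw [← h3]; exact hp
  have hgU : ∀ p ∈ S, p.2 ≤ -g' p.1 := by
    intro p hp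
    have h1 := hg4 (r p) ⟨p, hp, rfl⟩
    have h2 : g' p.1 ≤ -p.2 := h1
    linarith
  refine ⟨a, b, f, fun x => -g' x, hle, hf1, hg1.neg, hf2, hg2.neg, ?_, ?_⟩
  · intro x hx
    exact hf4 (x, -g' x) (hgS x hx)
  · apply Set.Subset.antisymm
    · intro p hp
      refine ⟨?_, hf4 p hp, hgU p hp⟩
      rw [← hab]; exact ⟨p, hp, rfl⟩
    · rintro ⟨x, y⟩ ⟨hx, hy1, hy2⟩
      simp only at hx hy1 hy2
      have h1 := hf3 x hx
      have h2 := hgS x hx
      rcases eq_or_lt_of_le (hy1.trans hy2) with heq | hlt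
      · have h3 : y = f x := le_antisymm (by linarith) hy1
        rw [h3]; exact h1
      · have hpos : 0 < -g' x - f x := by linarith
        have h3 := hc h1 h2 (a := (-g' x - y) / (-g' x - f x)) (b := (y - f x) / (-g' x - f x))
          (div_nonneg (by linarith) hpos.le) (div_nonneg (by linarith) hpos.le)
          (by field_simp; ring)
        have h4 : ((-g' x - y) / (-g' x - f x)) • (x, f x) + ((y - f x) / (-g' x - f x)) • (x, -g' x) = (x, y) := by
          apply Prod.ext
          · simp only [Prod.fst_add, Prod.smul_fst, smul_eq_mul]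
            field_simp
            ring
          · simp only [Prod.snd_add, Prod.smul_snd, smul_eq_mul]
            field_simp
            ring
        rw [h4] at h3
        exact h3

end FT722
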