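import Mathlib
set_option autoImplicit false
namespace FT722.LD

theorem inj_ab (a b : EuclideanSpace ℝ (Fin 2)) (d : ℝ) (hd : 0 < d)
    (hdet : a 0 * b 1 - a 1 * b 0 = d) {x y x' y' : ℝ}
    (h : x • a + y • b = x' • a + y' • b) : x = x' ∧ y = y' := by
  have h0 : x * a 0 + y * b 0 = x' * a 0 + y' * b 0 := by
    have := congrArg (fun v : EuclideanSpace ℝ (Fin 2) => v 0) h
    simpa using this
  have h1 : x * a 1 + y * b 1 = x' * a 1 + y' * b 1 := by
    have := congrArg (fun v : EuclideanSpace ℝ (Fin 2) => v 1) h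
    simpa using this
  constructor
  · have : (x - x') * d = 0 := by rw [← hdet]; linear_combination b 1 * h0 - b 0 * h1
    rcases mul_eq_zero.1 this with h | h
    · linarith
    · exact absurd h hd.ne'
  · have : (y - y') * d = 0 := by rw [← hdet]; linear_combination a 0 * h1 - a 1 * h0
    rcases mul_eq_zero.1 this with h | h
    · linarith
    · exact absurd h hd.ne'

/-- the linear map `(x, y) ↦ x a + y b` -/
noncomputable def lm (a b : EuclideanSpace ℝ (Fin 2)) :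
    EuclideanSpace ℝ (Fin 2) →ₗ[ℝ] EuclideanSpace ℝ (Fin 2) :=
  Matrix.toLin (EuclideanSpace.basisFun (Fin 2) ℝ).toBasis
    (EuclideanSpace.basisFun (Fin 2) ℝ).toBasis !![a 0, b 0; a 1, b 1]

theorem lm_apply (a b x : EuclideanSpace ℝ (Fin 2)) : lm a b x = x 0 • a + x 1 • b := by
  rw [lm, Matrix.toLin_apply]
  ext i
  fin_cases i <;> simp [Matrix.mulVec, dotProduct, Fin.sum_univ_two, mul_comm]

theorem lm_det (a b : EuclideanSpace ℝ (Fin 2)) :
    LinearMap.det (lm a b) = a 0 * b 1 - a 1 * b 0 := by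
  rw [lm, LinearMap.det_toLin, Matrix.det_fin_two_of]
  ring

def Q : Set (EuclideanSpace ℝ (Fin 2)) := {x | ∀ i, x i ∈ Set.Ico (0 : ℝ) 1}

theorem Q_eq : Q = (@WithLp.ofLp 2 (Fin 2 → ℝ)) ⁻¹'
    (Set.pi Set.univ fun _ => Set.Ico (0 : ℝ) 1) := by
  ext x
  simp [Q]

theorem meas_box : MeasurableSet (Set.pi Set.univ fun _ : Fin 2 => Set.Ico (0 : ℝ) 1) :=
  MeasurableSet.univ_pi fun _ => measurableSet_Ico

theorem meas_Q : MeasurableSet Q := by
  rw [Q_eq]
  exact (PiLp.volume_preserving_ofLp (Fin 2)).measurable meas_box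

theorem vol_Q : MeasureTheory.volume Q = 1 := by
  rw [Q_eq, (PiLp.volume_preserving_ofLp (Fin 2)).measure_preimage meas_box.nullMeasurableSet,
    Real.volume_pi_Ico]
  simp

theorem lm_inj (a b : EuclideanSpace ℝ (Fin 2)) (d : ℝ) (hd : 0 < d)
    (hdet : a 0 * b 1 - a 1 * b 0 = d) : Function.Injective (lm a b) := by
  intro x y h
  rw [lm_apply, lm_apply] at h
  obtain ⟨h0, h1⟩ := inj_ab a b d hd hdet h
  ext i
  fin_cases i
  · exact h0
  · exact h1

def Par (a b : EuclideanSpace ℝ (Fin 2)) : Set (EuclideanSpace ℝ (Fin 2)) := lm a b '' Q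

theorem meas_Par (a b : EuclideanSpace ℝ (Fin 2)) (d : ℝ) (hd : 0 < d)
    (hdet : a 0 * b 1 - a 1 * b 0 = d) : MeasurableSet (Par a b) :=
  meas_Q.image_of_measurable_injOn (LinearMap.continuous_of_finiteDimensional _).measurable
    (lm_inj a b d hd hdet).injOn

theorem vol_Par (a b : EuclideanSpace ℝ (Fin 2)) (d : ℝ) (hd : 0 < d)
    (hdet : a 0 * b 1 - a 1 * b 0 = d) : MeasureTheory.volume (Par a b) = ENNReal.ofReal d := by
  rw [Par, MeasureTheory.Measure.addHaar_image_linearMap, vol_Q, lm_det, hdet, abs_of_pos hd,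
    mul_one]

theorem mem_Par {a b x : EuclideanSpace ℝ (Fin 2)} (h : x ∈ Par a b) :
    ∃ u v : ℝ, 0 ≤ u ∧ u < 1 ∧ 0 ≤ v ∧ v < 1 ∧ x = u • a + v • b := by
  obtain ⟨y, hy, rfl⟩ := h
  exact ⟨y 0, y 1, (hy 0).1, (hy 0).2, (hy 1).1, (hy 1).2, lm_apply a b y⟩

def Lat (a b : EuclideanSpace ℝ (Fin 2)) : Set (EuclideanSpace ℝ (Fin 2)) :=
  {p | ∃ m n : ℤ, p = (m : ℝ) • a + (n : ℝ) • b}

theorem Lat_countable (a b : EuclideanSpace ℝ (Fin 2)) : (Lat a b).Countable := by
  refine (Set.countable_range fun x : ℤ × ℤ => (x.1 : ℝ) • a + (x.2 : ℝ) • b).mono ?_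
  rintro p ⟨m, n, rfl⟩
  exact ⟨(m, n), rfl⟩

theorem frac_eq {u v : ℝ} {m n : ℤ} (hu : 0 ≤ u) (hu1 : u < 1) (hv : 0 ≤ v) (hv1 : v < 1)
    (h : (m : ℝ) + u = n + v) : m = n := by
  have h1 : (m : ℝ) < n + 1 := by linarith
  have h2 : (n : ℝ) < m + 1 := by linarith
  have h3 : m < n + 1 := by exact_mod_cast h1
  have h4 : n < m + 1 := by exact_mod_cast h2
  omega

theorem disj (a b : EuclideanSpace ℝ (Fin 2)) (d : ℝ) (hd : 0 < d)
    (hdet : a 0 * b 1 - a 1 * b 0 = d) {p q : EuclideanSpace ℝ (Fin 2)} (hp : p ∈ Lat a b)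
    (hq : q ∈ Lat a b) (hne : p ≠ q) :
    Disjoint ((fun x => p + x) '' Par a b) ((fun x => q + x) '' Par a b) := by
  rw [Set.disjoint_left]
  rintro z ⟨x, hx, rfl⟩ ⟨y, hy, hxy⟩
  obtain ⟨m, n, rfl⟩ := hp
  obtain ⟨m', n', rfl⟩ := hq
  obtain ⟨u, v, hu, hu1, hv, hv1, rfl⟩ := mem_Par hx
  obtain ⟨u', v', hu', hu1', hv', hv1', rfl⟩ := mem_Par hy
  have h : ((m' : ℝ) + u') • a + ((n' : ℝ) + v') • b = ((m : ℝ) + u) • a + ((n : ℝ) + v) • b := by
    have := hxy
    simp only at this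
    rw [add_smul, add_smul, add_smul, add_smul]
    calc _ = (m' : ℝ) • a + (n' : ℝ) • b + (u' • a + v' • b) := by abel
      _ = (m : ℝ) • a + (n : ℝ) • b + (u • a + v • b) := this
      _ = _ := by abel
  obtain ⟨h0, h1⟩ := inj_ab a b d hd hdet h
  apply hne
  rw [frac_eq hu' hu1' hu hu1 h0, frac_eq hv' hv1' hv hv1 h1]

theorem main_ineq (a b : EuclideanSpace ℝ (Fin 2)) (d : ℝ) (hd : 0 < d)
    (hdet : a 0 * b 1 - a 1 * b 0 = d) (r : ℝ) :
    ((Lat a b ∩ Metric.ball (0 : EuclideanSpace ℝ (Fin 2)) r).encard : ENNReal) *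
      ENNReal.ofReal d ≤ MeasureTheory.volume
        (Metric.ball (0 : EuclideanSpace ℝ (Fin 2)) (r + (‖a‖ + ‖b‖))) := by
  set S := Lat a b ∩ Metric.ball (0 : EuclideanSpace ℝ (Fin 2)) r with hS
  have hSc : S.Countable := (Lat_countable a b).mono Set.inter_subset_left
  have h1 : MeasureTheory.volume (⋃ p ∈ S, (fun x => p + x) '' Par a b) =
      ∑' p : S, MeasureTheory.volume ((fun x => (p : EuclideanSpace ℝ (Fin 2)) + x) '' Par a b) := by
    refine MeasureTheory.measure_biUnion hSc ?_ ?_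
    · intro p hp q hq hne
      exact disj a b d hd hdet hp.1 hq.1 hne
    · intro p _
      exact (MeasurableEquiv.addLeft p).measurableSet_image.2 (meas_Par a b d hd hdet)
  have h2 : ∀ p : EuclideanSpace ℝ (Fin 2),
      MeasureTheory.volume ((fun x => p + x) '' Par a b) = ENNReal.ofReal d := by
    intro p
    rw [← vol_Par a b d hd hdet]
    have := MeasureTheory.measure_preimage_add MeasureTheory.volume (-p) (Par a b)
    rw [← this]
    congr 1
    ext x
    simp only [Set.mem_image, Set.mem_preimage]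
    constructor
    · rintro ⟨y, hy, rfl⟩
      simpa using hy
    · intro hx
      exact ⟨-p + x, hx, by simp⟩
  simp only [h2] at h1
  rw [ENNReal.tsum_set_const] at h1
  rw [← h1]
  refine MeasureTheory.measure_mono ?_
  intro z hz
  simp only [Set.mem_iUnion] at hz
  obtain ⟨p, hp, x, hx, rfl⟩ := hz
  obtain ⟨u, v, hu, hu1, hv, hv1, rfl⟩ := mem_Par hx
  have h3 : ‖p‖ < r := by simpa using hp.2
  have h4 : ‖u • a + v • b‖ ≤ ‖a‖ + ‖b‖ := by
    refine (norm_add_le _ _).trans (add_le_add ?_ ?_)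
    · rw [norm_smul, Real.norm_eq_abs, abs_of_nonneg hu]
      exact mul_le_of_le_one_left (norm_nonneg _) hu1.le
    · rw [norm_smul, Real.norm_eq_abs, abs_of_nonneg hv]
      exact mul_le_of_le_one_left (norm_nonneg _) hv1.le
  rw [mem_ball_zero_iff]
  calc ‖p + (u • a + v • b)‖ ≤ ‖p‖ + ‖u • a + v • b‖ := norm_add_le _ _
    _ < r + (‖a‖ + ‖b‖) := by linarith

/-- Density of the lattice generated by `a`, `b` (determinant `d`). -/
theorem lattice_density (a b : EuclideanSpace ℝ (Fin 2)) (d : ℝ) (hd : 0 < d)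
    (hdet : a 0 * b 1 - a 1 * b 0 = d) (V : ENNReal) (hV : V ≠ ⊤) :
    Filter.liminf
      (fun r : ℝ =>
        (({p : EuclideanSpace ℝ (Fin 2) | ∃ m n : ℤ, p = (m : ℝ) • a + (n : ℝ) • b} ∩
            Metric.ball (0 : EuclideanSpace ℝ (Fin 2)) r).encard : ENNReal)
          * V / MeasureTheory.volume (Metric.ball (0 : EuclideanSpace ℝ (Fin 2)) r))
      Filter.atTop ≤ V / ENNReal.ofReal d := by
  set D := ‖a‖ + ‖b‖ with hD
  have hD0 : 0 ≤ D := by positivity
  have hd0 : ENNReal.ofReal d ≠ 0 := by simpa using hd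
  have hdt : ENNReal.ofReal d ≠ ⊤ := ENNReal.ofReal_ne_top
  have hVd : V / ENNReal.ofReal d ≠ ⊤ := ENNReal.div_ne_top hV hd0
  have hlim : Filter.Tendsto (fun r : ℝ => ENNReal.ofReal (((r + D) / r) ^ 2) *
      (V / ENNReal.ofReal d)) Filter.atTop (nhds (1 * (V / ENNReal.ofReal d))) := by
    refine ENNReal.Tendsto.mul_const ?_ (Or.inr hVd)
    have h1 : Filter.Tendsto (fun r : ℝ => ((r + D) / r) ^ 2) Filter.atTop (nhds 1) := by
      have h2 : Filter.Tendsto (fun r : ℝ => (1 + D / r) ^ 2) Filter.atTop (nhds ((1 + 0) ^ 2)) :=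
        (Filter.Tendsto.const_add 1 (Filter.Tendsto.const_div_atTop Filter.tendsto_id D)).pow 2
      rw [add_zero, one_pow] at h2
      refine h2.congr' ?_
      filter_upwards [Filter.eventually_gt_atTop 0] with r hr
      have : (r + D) / r = 1 + D / r := by field_simp
      rw [this]
    have := ENNReal.tendsto_ofReal h1
    rwa [ENNReal.ofReal_one] at this
  rw [one_mul] at hlim
  rw [← hlim.liminf_eq]
  refine Filter.liminf_le_liminf ?_
  filter_upwards [Filter.eventually_gt_atTop 0] with r hr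
  have h1 := main_ineq a b d hd hdet r
  rw [← hD] at h1
  set W := MeasureTheory.volume (Metric.ball (0 : EuclideanSpace ℝ (Fin 2)) 1) with hW
  have hW0 : W ≠ 0 := (Metric.measure_ball_pos _ _ one_pos).ne'
  have hWt : W ≠ ⊤ := MeasureTheory.measure_ball_lt_top.ne
  rw [MeasureTheory.Measure.addHaar_ball _ _ (by positivity)] at h1
  rw [MeasureTheory.Measure.addHaar_ball _ _ hr.le]
  rw [← hW] at h1 ⊢
  have hfin : Module.finrank ℝ (EuclideanSpace ℝ (Fin 2)) = 2 := by simp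
  rw [hfin] at h1 ⊢
  have hL : (Lat a b ∩ Metric.ball (0 : EuclideanSpace ℝ (Fin 2)) r).encard =
    ({p : EuclideanSpace ℝ (Fin 2) | ∃ m n : ℤ, p = (m : ℝ) • a + (n : ℝ) • b} ∩
            Metric.ball (0 : EuclideanSpace ℝ (Fin 2)) r).encard := rfl
  rw [← hL]
  set N : ENNReal := ((Lat a b ∩ Metric.ball (0 : EuclideanSpace ℝ (Fin 2)) r).encard : ENNReal)
    with hN
  have hr2 : ENNReal.ofReal (r ^ 2) ≠ 0 := by
    have : 0 < r ^ 2 := by positivity
    exact (ENNReal.ofReal_pos.2 this).ne'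
  have hr2t : ENNReal.ofReal (r ^ 2) ≠ ⊤ := ENNReal.ofReal_ne_top
  have h3 : N ≤ ENNReal.ofReal ((r + D) ^ 2) * W / ENNReal.ofReal d :=
    (ENNReal.le_div_iff_mul_le (Or.inl hd0) (Or.inl hdt)).2 h1
  rw [div_pow, ENNReal.ofReal_div_of_pos (by positivity)]
  rw [ENNReal.div_le_iff (mul_ne_zero hr2 hW0) (ENNReal.mul_ne_top hr2t hWt)]
  calc N * V ≤ ENNReal.ofReal ((r + D) ^ 2) * W / ENNReal.ofReal d * V := by gcongr
    _ = ENNReal.ofReal ((r + D) ^ 2) * (V / ENNReal.ofReal d) * W := by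
        simp only [div_eq_mul_inv]; ring
    _ = ENNReal.ofReal ((r + D) ^ 2) / ENNReal.ofReal (r ^ 2) * (V / ENNReal.ofReal d) *
        (ENNReal.ofReal (r ^ 2) * W) := by
        rw [show ENNReal.ofReal ((r + D) ^ 2) / ENNReal.ofReal (r ^ 2) * (V / ENNReal.ofReal d) *
          (ENNReal.ofReal (r ^ 2) * W) = (ENNReal.ofReal ((r + D) ^ 2) / ENNReal.ofReal (r ^ 2) *
          ENNReal.ofReal (r ^ 2)) * (V / ENNReal.ofReal d) * W by ring,
          ENNReal.div_mul_cancel hr2 hr2t]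

end FT722.LD
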