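import Mathlib
import Pool.Agent.FT934.Defs
set_option autoImplicit false
namespace FT722
/-- A hexagon `±u,±v,±w` of maximal area in a symmetric convex body. -/
theorem exists_max_hex {K : Set (ℝ × ℝ)} (hK : IsCompact K) (hc : Convex ℝ K)
    (hs : ∀ p ∈ K, -p ∈ K) (hint : (interior K).Nonempty) :
    ∃ u ∈ K, ∃ v ∈ K, ∃ w ∈ K, 0 ≤ cr u v ∧ 0 ≤ cr v w ∧ 0 ≤ cr u w ∧
      0 < cr u v + cr v w + cr u w ∧
      ∀ u' ∈ K, ∀ v' ∈ K, ∀ w' ∈ K,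
        cr u' v' + cr v' w' + cr u' w' ≤ cr u v + cr v w + cr u w := by
  obtain ⟨x, hx⟩ := hint
  have hxK : x ∈ K := interior_subset hx
  have hf : Continuous fun t : (ℝ × ℝ) × (ℝ × ℝ) × (ℝ × ℝ) => cr t.1 t.2.1 + cr t.2.1 t.2.2 + cr t.1 t.2.2 := by
    unfold cr
    fun_prop
  obtain ⟨⟨u, v, w⟩, hm, hmax⟩ := (hK.prod (hK.prod hK)).exists_isMaxOn ⟨(x, x, x), ⟨hxK, hxK, hxK⟩⟩ hf.continuousOn
  obtain ⟨hu, hv, hw⟩ := hm
  simp only at hu hv hw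
  have hM : ∀ u' ∈ K, ∀ v' ∈ K, ∀ w' ∈ K,
        cr u' v' + cr v' w' + cr u' w' ≤ cr u v + cr v w + cr u w := by
    intro u' hu' v' hv' w' hw'
    exact hmax (show (u', v', w') ∈ K ×ˢ (K ×ˢ K) from ⟨hu', hv', hw'⟩)
  have e : ∀ p : ℝ × ℝ, cr p p = 0 := by intro p; unfold cr; ring
  have h1 := hM u hu v hv v hv
  have h2 := hM v hv w hw w hw
  have h3 := hM u hu w hw w hw
  rw [e] at h1 h2 h3
  refine ⟨u, hu, v, hv, w, hw, by linarith, by linarith, by linarith, ?_, hM⟩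
  obtain ⟨ε, hε, hb⟩ := Metric.mem_nhds_iff.mp (mem_interior_iff_mem_nhds.mp hx)
  have hmem : ∀ s t : ℝ, |s| < ε → |t| < ε → (x.1 + s, x.2 + t) ∈ K := by
    intro s t hs ht
    apply hb
    rw [Metric.mem_ball, Prod.dist_eq, Real.dist_eq, Real.dist_eq]
    simp only [add_sub_cancel_left]
    exact max_lt hs ht
  have hε2 : |ε / 2| < ε := by rw [abs_of_pos (by linarith)]; linarith
  have hε3 : |-(ε / 2)| < ε := by rw [abs_neg]; exact hε2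
  have h0 : |(0:ℝ)| < ε := by rw [abs_zero]; exact hε
  have g1 := hM _ (hmem (ε/2) 0 hε2 h0) _ (hmem 0 (ε/2) h0 hε2) _ (hmem 0 (ε/2) h0 hε2)
  have g2 := hM _ (hmem (-(ε/2)) 0 hε3 h0) _ (hmem 0 (-(ε/2)) h0 hε3) _ (hmem 0 (-(ε/2)) h0 hε3)
  rw [e] at g1 g2
  have k1 : cr (x.1 + ε/2, x.2 + 0) (x.1 + 0, x.2 + ε/2) = ε/2 * (x.1 + x.2) + (ε/2)^2 := by unfold cr; ring
  have k2 : cr (x.1 + -(ε/2), x.2 + 0) (x.1 + 0, x.2 + -(ε/2)) = -(ε/2 * (x.1 + x.2)) + (ε/2)^2 := by unfold cr; ring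
  rw [k1] at g1
  rw [k2] at g2
  have : 0 < (ε/2)^2 := by positivity
  linarith

end FT722
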