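import Mathlib
set_option autoImplicit false
namespace FT722

/-- Finitely many order connected subsets of `[s0,s1]`: a finite partition on the open cells of
which all memberships are constant, and every set is entered at most once and left at most once. -/
theorem finite_partition {k : ℕ} {s0 s1 : ℝ} (h01 : s0 < s1) (J : Fin k → Set ℝ)
    (hJ : ∀ i, (J i).OrdConnected) :
    ∃ (N : ℕ) (x : ℕ → ℝ), 1 ≤ N ∧ x 0 = s0 ∧ x N = s1 ∧ (∀ j < N, x j < x (j + 1)) ∧
      (∀ j < N, ∀ i, Set.Ioo (x j) (x (j + 1)) ⊆ J i ∨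
        Disjoint (Set.Ioo (x j) (x (j + 1))) (J i)) := by
  classical
  let P : Finset ℝ := (Finset.univ.image (fun i => sInf (J i ∩ Set.Icc s0 s1))) ∪
    (Finset.univ.image (fun i => sSup (J i ∩ Set.Icc s0 s1)))
  let F : Finset ℝ := insert s0 (insert s1 (P.filter (fun y => s0 < y ∧ y < s1)))
  have hF0 : s0 ∈ F := by simp [F]
  have hF1 : s1 ∈ F := by simp [F]
  have hFb : ∀ y ∈ F, s0 ≤ y ∧ y ≤ s1 := by
    intro y hy
    simp only [F, Finset.mem_insert, Finset.mem_filter] at hy
    rcases hy with rfl | rfl | ⟨-, h1, h2⟩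
    · exact ⟨le_rfl, h01.le⟩
    · exact ⟨h01.le, le_rfl⟩
    · exact ⟨h1.le, h2.le⟩
  have hcard : 1 < F.card := Finset.one_lt_card.2 ⟨s0, hF0, s1, hF1, h01.ne⟩
  obtain ⟨N, hN⟩ : ∃ N, F.card = N + 1 := ⟨F.card - 1, by omega⟩
  have hN1 : 1 ≤ N := by omega
  let e := F.orderEmbOfFin hN
  let x : ℕ → ℝ := fun j => if h : j < N + 1 then e ⟨j, h⟩ else s1
  have hx : ∀ j (h : j < N + 1), x j = e ⟨j, h⟩ := fun j h => by simp only [x, dif_pos h]
  have hrange : ∀ y ∈ F, ∃ j : Fin (N + 1), e j = y := by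
    intro y hy
    have : y ∈ Set.range e := by
      rw [Finset.range_orderEmbOfFin F hN]; exact hy
    exact this
  have hmem : ∀ j, e j ∈ F := fun j => Finset.orderEmbOfFin_mem F hN j
  refine ⟨N, x, hN1, ?_, ?_, ?_, ?_⟩
  · obtain ⟨j, hj⟩ := hrange s0 hF0
    apply le_antisymm
    · rw [hx 0 (by omega)]
      have hm := e.monotone (Fin.zero_le j)
      rw [hj] at hm
      exact hm
    · rw [hx 0 (by omega)]
      exact (hFb _ (hmem _)).1
  · obtain ⟨j, hj⟩ := hrange s1 hF1
    apply le_antisymm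
    · rw [hx N (by omega)]
      exact (hFb _ (hmem _)).2
    · rw [hx N (by omega)]
      have hm := e.monotone (show j ≤ (⟨N, by omega⟩ : Fin (N + 1)) from
        Fin.le_def.2 (by have := j.2; simp; omega))
      rw [hj] at hm
      exact hm
  · intro j hj
    rw [hx j (by omega), hx (j + 1) (by omega)]
    apply e.strictMono
    exact Fin.lt_def.2 (by simp)
  · intro j hj i
    have hlow : s0 ≤ x j := by rw [hx j (by omega)]; exact (hFb _ (hmem _)).1
    have hup : x (j + 1) ≤ s1 := by rw [hx (j + 1) (by omega)]; exact (hFb _ (hmem _)).2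
    have hno : ∀ y ∈ F, y ∉ Set.Ioo (x j) (x (j + 1)) := by
      rintro y hy ⟨h1, h2⟩
      obtain ⟨l, rfl⟩ := hrange y hy
      rw [hx j (by omega)] at h1
      rw [hx (j + 1) (by omega)] at h2
      have h3 := Fin.lt_def.1 (e.lt_iff_lt.1 h1)
      have h4 := Fin.lt_def.1 (e.lt_iff_lt.1 h2)
      simp at h3 h4
      omega
    have hno' : ∀ y ∈ P, y ∉ Set.Ioo (x j) (x (j + 1)) := by
      intro y hy hy2
      apply hno y _ hy2
      simp only [F, Finset.mem_insert, Finset.mem_filter]
      exact Or.inr (Or.inr ⟨hy, lt_of_le_of_lt hlow hy2.1, lt_of_lt_of_le hy2.2 hup⟩)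
    have hinf : sInf (J i ∩ Set.Icc s0 s1) ∈ P := by
      simp only [P, Finset.mem_union, Finset.mem_image]
      exact Or.inl ⟨i, Finset.mem_univ _, rfl⟩
    have hsup : sSup (J i ∩ Set.Icc s0 s1) ∈ P := by
      simp only [P, Finset.mem_union, Finset.mem_image]
      exact Or.inr ⟨i, Finset.mem_univ _, rfl⟩
    by_contra hc
    push Not at hc
    obtain ⟨hc1, hc2⟩ := hc
    rw [Set.not_subset] at hc1
    rw [Set.not_disjoint_iff] at hc2
    obtain ⟨q, hq, hqJ⟩ := hc1
    obtain ⟨p, hp, hpJ⟩ := hc2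
    have hpI : p ∈ J i ∩ Set.Icc s0 s1 :=
      ⟨hpJ, by linarith [hp.1], by linarith [hp.2]⟩
    have hne : p ≠ q := by rintro rfl; exact hqJ hpJ
    have hba : BddAbove (J i ∩ Set.Icc s0 s1) := ⟨s1, fun y hy => hy.2.2⟩
    have hbb : BddBelow (J i ∩ Set.Icc s0 s1) := ⟨s0, fun y hy => hy.2.1⟩
    rcases lt_or_gt_of_ne hne with h | h
    · apply hno' _ hsup
      have h1 : p ≤ sSup (J i ∩ Set.Icc s0 s1) := le_csSup hba hpI
      have h2 : sSup (J i ∩ Set.Icc s0 s1) ≤ q := by
        apply csSup_le ⟨p, hpI⟩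
        intro y hy
        by_contra hyq
        push Not at hyq
        exact hqJ ((hJ i).out hpJ hy.1 ⟨h.le, hyq.le⟩)
      exact ⟨lt_of_lt_of_le hp.1 h1, lt_of_le_of_lt h2 hq.2⟩
    · apply hno' _ hinf
      have h1 : sInf (J i ∩ Set.Icc s0 s1) ≤ p := csInf_le hbb hpI
      have h2 : q ≤ sInf (J i ∩ Set.Icc s0 s1) := by
        apply le_csInf ⟨p, hpI⟩
        intro y hy
        by_contra hyq
        push Not at hyq
        exact hqJ ((hJ i).out hy.1 hpJ ⟨hyq.le, h.le⟩)
      exact ⟨lt_of_lt_of_le hq.1 h2, lt_of_le_of_lt h1 hp.2⟩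

open Classical in
theorem count_one (N : ℕ) (hN : 1 ≤ N) (p : ℕ → Prop)
    (hcont : ∀ j1 j2 j3 : ℕ, j1 ≤ j2 → j2 ≤ j3 → j3 < N → p j1 → p j3 → p j2) :
    ∑ j ∈ Finset.range (N - 1), (if ¬ (p j ↔ p (j + 1)) then 1 else 0)
      + (if p 0 then 1 else 0) + (if p (N - 1) then 1 else 0) ≤ 2 := by
  by_cases hex : ∃ j, j < N ∧ p j
  · have hne : ((Finset.range N).filter p).Nonempty := by
      obtain ⟨j, hj, hp⟩ := hex
      exact ⟨j, by simp [hj, hp]⟩
    set a := ((Finset.range N).filter p).min' hne with ha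
    set b := ((Finset.range N).filter p).max' hne with hb
    have ha' := Finset.min'_mem _ hne
    have hb' := Finset.max'_mem _ hne
    rw [← ha, Finset.mem_filter, Finset.mem_range] at ha'
    rw [← hb, Finset.mem_filter, Finset.mem_range] at hb'
    have hiff : ∀ j < N, (p j ↔ a ≤ j ∧ j ≤ b) := by
      intro j hj
      constructor
      · intro h
        have hm : j ∈ (Finset.range N).filter p := by simp [hj, h]
        exact ⟨Finset.min'_le _ _ hm, Finset.le_max' _ _ hm⟩
      · rintro ⟨h1, h2⟩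
        exact hcont a j b h1 h2 hb'.1 ha'.2 hb'.2
    have hab : a ≤ b := ((hiff a ha'.1).1 ha'.2).2
    have h1 : ∑ j ∈ Finset.range (N - 1), (if ¬ (p j ↔ p (j + 1)) then 1 else 0)
        ≤ ∑ j ∈ Finset.range (N - 1), ((if j + 1 = a then 1 else 0) + (if j = b then 1 else 0)) := by
      apply Finset.sum_le_sum
      intro j hj
      rw [Finset.mem_range] at hj
      have e1 := hiff j (by omega)
      have e2 := hiff (j + 1) (by omega)
      rw [e1, e2]
      split_ifs <;> first | omega | (exfalso; omega)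
    have h2 : ∑ j ∈ Finset.range (N - 1), (if j + 1 = a then 1 else 0) ≤ if a = 0 then 0 else 1 := by
      by_cases h0 : a = 0
      · rw [if_pos h0]
        apply le_of_eq
        apply Finset.sum_eq_zero
        intro j _
        rw [if_neg (by omega)]
      · rw [if_neg h0]
        calc ∑ j ∈ Finset.range (N - 1), (if j + 1 = a then 1 else 0)
            ≤ ∑ j ∈ Finset.range (N - 1), (if j = a - 1 then 1 else 0) := by
              apply Finset.sum_le_sum
              intro j _
              split_ifs <;> omega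
          _ ≤ 1 := by
              rw [Finset.sum_ite_eq']
              split_ifs <;> omega
    have h3 : ∑ j ∈ Finset.range (N - 1), (if j = b then 1 else 0) ≤ if b = N - 1 then 0 else 1 := by
      rw [Finset.sum_ite_eq']
      simp only [Finset.mem_range]
      split_ifs <;> omega
    rw [Finset.sum_add_distrib] at h1
    have e0 := hiff 0 (by omega)
    have eN := hiff (N - 1) (by omega)
    have h4 : (if p 0 then 1 else 0) + (if a = 0 then 0 else 1) ≤ 1 := by
      by_cases hp0 : p 0
      · have := e0.1 hp0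
        rw [if_pos hp0, if_pos (by omega)]
      · have h0 : a ≠ 0 := fun h => hp0 (e0.2 (by omega))
        rw [if_neg hp0, if_neg h0]
    have h5 : (if p (N - 1) then 1 else 0) + (if b = N - 1 then 0 else 1) ≤ 1 := by
      by_cases hp0 : p (N - 1)
      · have := eN.1 hp0
        have hb1 := hb'.1
        rw [if_pos hp0, if_pos (by omega)]
      · have h0 : b ≠ N - 1 := fun h => hp0 (eN.2 (by omega))
        rw [if_neg hp0, if_neg h0]
    have h6 := le_trans h1 (add_le_add h2 h3)
    calc _ ≤ ((if a = 0 then 0 else 1) + (if b = N - 1 then 0 else 1))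
          + (if p 0 then 1 else 0) + (if p (N - 1) then 1 else 0) :=
          Nat.add_le_add_right (Nat.add_le_add_right h6 _) _
      _ = ((if p 0 then 1 else 0) + (if a = 0 then 0 else 1))
          + ((if p (N - 1) then 1 else 0) + (if b = N - 1 then 0 else 1)) := by ac_rfl
      _ ≤ 1 + 1 := Nat.add_le_add h4 h5
  · push Not at hex
    have h1 : ∑ j ∈ Finset.range (N - 1), (if ¬ (p j ↔ p (j + 1)) then 1 else 0) = 0 := by
      apply Finset.sum_eq_zero
      intro j hj
      rw [Finset.mem_range] at hj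
      rw [if_neg]
      have := hex j (by omega)
      have := hex (j + 1) (by omega)
      tauto
    rw [h1, if_neg (hex 0 (by omega)), if_neg (hex (N - 1) (by omega))]
    omega

open Classical in
/-- Counting membership changes of a family of contiguous memberships. -/
theorem count_changes {k : ℕ} (N : ℕ) (hN : 1 ≤ N) (M : ℕ → Finset (Fin k))
    (hcont : ∀ i, ∀ j1 j2 j3 : ℕ, j1 ≤ j2 → j2 ≤ j3 → j3 < N → i ∈ M j1 → i ∈ M j3 → i ∈ M j2) :
    ∑ j ∈ Finset.range (N - 1), (symmDiff (M j) (M (j + 1))).card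
      + (M 0).card + (M (N - 1)).card ≤ 2 * k := by
  have hc : ∀ s : Finset (Fin k), s.card = ∑ i : Fin k, if i ∈ s then 1 else 0 := by
    intro s; simp
  have h1 : ∑ j ∈ Finset.range (N - 1), (symmDiff (M j) (M (j + 1))).card
      = ∑ i : Fin k, ∑ j ∈ Finset.range (N - 1), (if ¬ (i ∈ M j ↔ i ∈ M (j + 1)) then 1 else 0) := by
    rw [Finset.sum_comm]
    apply Finset.sum_congr rfl
    intro j _
    rw [hc]
    apply Finset.sum_congr rfl
    intro i _
    have : i ∈ symmDiff (M j) (M (j + 1)) ↔ ¬ (i ∈ M j ↔ i ∈ M (j + 1)) := by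
      rw [Finset.mem_symmDiff]; tauto
    simp only [this]
  rw [h1, hc (M 0), hc (M (N - 1)), ← Finset.sum_add_distrib, ← Finset.sum_add_distrib]
  refine le_trans (Finset.sum_le_sum (g := fun _ => 2) (fun i _ => ?_)) ?_
  · have := count_one N hN (fun j => i ∈ M j) (hcont i)
    refine le_trans (le_of_eq ?_) this
    refine congrArg₂ (· + ·) (congrArg₂ (· + ·) (Finset.sum_congr rfl (fun j _ => ?_)) ?_) ?_
    all_goals split_ifs <;> rfl
  · simp [mul_comm]

end FT722
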