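import Mathlib
import Pool.Agent.FT934.CB
set_option autoImplicit false
namespace FT722

/-- the translate `i` is present at `s` (it meets the chord `[cm s, cp s]` and its slice is
inclusion-maximal, ties are broken by the abscissa of the centre) -/
def Present {k : ℕ} (a : ℝ) (U cm cp : ℝ → ℝ) (c : Fin k → ℝ × ℝ) (i : Fin k) (s : ℝ) : Prop :=
  dom a (c i) s ∧ lo U (c i) s ≤ cp s ∧ cm s ≤ hi U (c i) s ∧
  ∀ j, j ≠ i → dom a (c j) s → lo U (c j) s ≤ lo U (c i) s → hi U (c i) s ≤ hi U (c j) s →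
    (c j).1 < (c i).1 ∧ lo U (c j) s = lo U (c i) s ∧ hi U (c j) s = hi U (c i) s

theorem conc_app {S : Set ℝ} {f : ℝ → ℝ} (hf : ConcaveOn ℝ S f) {x y : ℝ} (hx : x ∈ S)
    (hy : y ∈ S) {p q : ℝ} (hp : 0 ≤ p) (hq : 0 ≤ q) (hpq : p + q = 1) :
    p * f x + q * f y ≤ f (p * x + q * y) := by
  simpa using hf.2 hx hy hp hq hpq

theorem conv_app {S : Set ℝ} {f : ℝ → ℝ} (hf : ConvexOn ℝ S f) {x y : ℝ} (hx : x ∈ S)
    (hy : y ∈ S) {p q : ℝ} (hp : 0 ≤ p) (hq : 0 ≤ q) (hpq : p + q = 1) :
    f (p * x + q * y) ≤ p * f x + q * f y := by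
  simpa using hf.2 hx hy hp hq hpq

theorem inc_anti {a : ℝ} {U : ℝ → ℝ} (hU : ConcaveOn ℝ (Set.Icc (-a) a) U) {t1 t2 d : ℝ}
    (h1 : -a ≤ t1) (h12 : t1 ≤ t2) (hd : 0 ≤ d) (h2 : t2 + d ≤ a) :
    U (t2 + d) - U t2 ≤ U (t1 + d) - U t1 := by
  rcases h12.eq_or_lt with h | h
  · rw [h]
  have hL : 0 < t2 + d - t1 := by linarith
  set l : ℝ := d / (t2 + d - t1) with hl
  have hl0 : 0 ≤ l := div_nonneg hd hL.le
  have hl1 : l ≤ 1 := by
    rw [hl, div_le_one hL]; linarith
  have hlL : l * (t2 + d - t1) = d := by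
    rw [hl, div_mul_cancel₀ _ hL.ne']
  have m1 : t1 ∈ Set.Icc (-a) a := ⟨h1, by linarith⟩
  have m2 : t2 + d ∈ Set.Icc (-a) a := ⟨by linarith, h2⟩
  have e1 := conc_app hU m1 m2 (p := 1 - l) (q := l) (by linarith) hl0 (by ring)
  have e2 := conc_app hU m1 m2 (p := l) (q := 1 - l) hl0 (by linarith) (by ring)
  have e3 : (1 - l) * t1 + l * (t2 + d) = t1 + d := by
    linear_combination hlL
  have e4 : l * t1 + (1 - l) * (t2 + d) = t2 := by
    linear_combination -hlL
  rw [e3] at e1
  rw [e4] at e2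
  nlinarith

/-- The presence set of a translate is order connected. -/
theorem present_ordConnected {k : ℕ} {a s0 s1 : ℝ} {U cm cp : ℝ → ℝ} {c : Fin k → ℝ × ℝ}
    (hU : ConcaveOn ℝ (Set.Icc (-a) a) U) (hcm : ConvexOn ℝ (Set.Icc s0 s1) cm)
    (hcp : ConcaveOn ℝ (Set.Icc s0 s1) cp) (hinj : Function.Injective c) (i : Fin k) :
    Set.OrdConnected {s : ℝ | s ∈ Set.Icc s0 s1 ∧ Present a U cm cp c i s} := by
  constructor
  rintro s ⟨hs, hPs⟩ s'' ⟨hs'', hPs''⟩ s' ⟨h1, h2⟩
  rcases h1.eq_or_lt with h1e | h1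
  · rw [← h1e]; exact ⟨hs, hPs⟩
  rcases h2.eq_or_lt with h2e | h2
  · rw [h2e]; exact ⟨hs'', hPs''⟩
  have hs' : s' ∈ Set.Icc s0 s1 := ⟨by linarith [hs.1], by linarith [hs''.2]⟩
  refine ⟨hs', ?_⟩
  obtain ⟨hd, hlo, hhi, hmax⟩ := hPs
  obtain ⟨hd'', hlo'', hhi'', hmax''⟩ := hPs''
  unfold dom at hd hd''
  rw [abs_le] at hd hd''
  have hL : 0 < s'' - s := by linarith
  set l : ℝ := (s' - s) / (s'' - s) with hl
  have hl0 : 0 ≤ l := div_nonneg (by linarith) hL.le
  have hl1 : l ≤ 1 := by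
    rw [hl, div_le_one hL]; linarith
  have hlL : l * (s'' - s) = s' - s := by
    rw [hl, div_mul_cancel₀ _ hL.ne']
  have hs'eq : s' = (1 - l) * s + l * s'' := by linear_combination -hlL
  refine ⟨?_, ?_, ?_, ?_⟩
  · unfold dom
    rw [abs_le]
    constructor <;> linarith
  · have e1 := conc_app hcp hs hs'' (p := 1 - l) (q := l) (by linarith) hl0 (by ring)
    have e2 := conc_app hU (x := (c i).1 - s) (y := (c i).1 - s'') ⟨by linarith, by linarith⟩
      ⟨by linarith, by linarith⟩ (p := 1 - l) (q := l) (by linarith) hl0 (by ring)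
    rw [← hs'eq] at e1
    have e3 : (1 - l) * ((c i).1 - s) + l * ((c i).1 - s'') = (c i).1 - s' := by
      rw [hs'eq]; ring
    rw [e3] at e2
    unfold lo at hlo hlo'' ⊢
    have e4 := mul_le_mul_of_nonneg_left hlo (show 0 ≤ 1 - l by linarith)
    have e5 := mul_le_mul_of_nonneg_left hlo'' hl0
    linarith
  · have e1 := conv_app hcm hs hs'' (p := 1 - l) (q := l) (by linarith) hl0 (by ring)
    have e2 := conc_app hU (x := s - (c i).1) (y := s'' - (c i).1) ⟨by linarith, by linarith⟩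
      ⟨by linarith, by linarith⟩ (p := 1 - l) (q := l) (by linarith) hl0 (by ring)
    rw [← hs'eq] at e1
    have e3 : (1 - l) * (s - (c i).1) + l * (s'' - (c i).1) = s' - (c i).1 := by
      rw [hs'eq]; ring
    rw [e3] at e2
    unfold hi at hhi hhi'' ⊢
    have e4 := mul_le_mul_of_nonneg_left hhi (show 0 ≤ 1 - l by linarith)
    have e5 := mul_le_mul_of_nonneg_left hhi'' hl0
    linarith
  · intro j hj hdj hloj hhij
    unfold dom at hdj
    rw [abs_le] at hdj
    rcases lt_trichotomy (c j).1 (c i).1 with hlt | heq | hgt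
    · -- compare with s
      have i1 := inc_anti hU (t1 := s - (c i).1) (t2 := s - (c j).1) (d := s' - s)
        (by linarith) (by linarith) (by linarith) (by linarith)
      have i2 := inc_anti hU (t1 := (c j).1 - s') (t2 := (c i).1 - s') (d := s' - s)
        (by linarith) (by linarith) (by linarith) (by linarith)
      rw [show s - (c j).1 + (s' - s) = s' - (c j).1 by ring,
        show s - (c i).1 + (s' - s) = s' - (c i).1 by ring] at i1
      rw [show (c j).1 - s' + (s' - s) = (c j).1 - s by ring,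
        show (c i).1 - s' + (s' - s) = (c i).1 - s by ring] at i2
      obtain ⟨-, k1, k2⟩ := hmax j hj (by unfold dom; rw [abs_le]; constructor <;> linarith)
        (by unfold lo at hloj ⊢; linarith) (by unfold hi at hhij ⊢; linarith)
      refine ⟨hlt, ?_, ?_⟩
      · unfold lo at k1 hloj ⊢; linarith
      · unfold hi at k2 hhij ⊢; linarith
    · exfalso
      apply hj
      apply hinj
      unfold lo at hloj
      unfold hi at hhij
      rw [heq] at hloj hhij
      exact Prod.ext heq (by linarith)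
    · exfalso
      have i1 := inc_anti hU (t1 := s' - (c j).1) (t2 := s' - (c i).1) (d := s'' - s')
        (by linarith) (by linarith) (by linarith) (by linarith)
      have i2 := inc_anti hU (t1 := (c i).1 - s'') (t2 := (c j).1 - s'') (d := s'' - s')
        (by linarith) (by linarith) (by linarith) (by linarith)
      rw [show s' - (c j).1 + (s'' - s') = s'' - (c j).1 by ring,
        show s' - (c i).1 + (s'' - s') = s'' - (c i).1 by ring] at i1
      rw [show (c j).1 - s'' + (s'' - s') = (c j).1 - s' by ring,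
        show (c i).1 - s'' + (s'' - s') = (c i).1 - s' by ring] at i2
      obtain ⟨k0, -, -⟩ := hmax'' j hj (by unfold dom; rw [abs_le]; constructor <;> linarith)
        (by unfold lo at hloj ⊢; linarith) (by unfold hi at hhij ⊢; linarith)
      linarith

end FT722
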